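import Pool.Agent.Lib.MP_524519_ag.DU5.TR.Iface

/-!
# DU5, TR, module SEMI: semicontinuity of the length with a universal polynomial
-/

set_option autoImplicit false
set_option linter.unusedSectionVars false

namespace Pool.Agent.DU5.TR.H20

open MvPowerSeries

/-- A matrix over a field of rank at least `s` has a non-zero minor of size `s`. -/
theorem exists_minor {ι κ F : Type} [Field F] [Fintype ι] [Fintype κ] (A : Matrix ι κ F) (s : ℕ)
    (hs : s ≤ A.rank) :
    ∃ (f : Fin s → ι) (g : Fin s → κ), (A.submatrix f g).det ≠ 0 := by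
  classical
  -- columns
  obtain ⟨v, hv, hspan, hli⟩ := Submodule.exists_fun_fin_finrank_span_eq F (Set.range A.col)
  have hr : s ≤ Module.finrank F (Submodule.span F (Set.range A.col)) := by
    rw [← Matrix.rank_eq_finrank_span_cols]; exact hs
  choose g0 hg0 using hv
  set g : Fin s → κ := fun i => g0 (Fin.castLE hr i) with hg
  have hcol : LinearIndependent F (A.submatrix id g).col := by
    have h1 : (A.submatrix id g).col = v ∘ Fin.castLE hr := by
      funext i
      rw [Function.comp_apply, ← hg0]
      rfl
    rw [h1]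
    exact hli.comp _ (Fin.castLE_injective hr)
  have hrk : s ≤ (A.submatrix id g).rank := by
    rw [← Matrix.rank_transpose]
    have h2 : LinearIndependent F (Matrix.transpose (A.submatrix id g)).row := by
      rw [Matrix.row_transpose]; exact hcol
    rw [h2.rank_matrix]; simp
  obtain ⟨w, hw, -, hliw⟩ := Submodule.exists_fun_fin_finrank_span_eq F
    (Set.range (A.submatrix id g).row)
  have hr' : s ≤ Module.finrank F (Submodule.span F (Set.range (A.submatrix id g).row)) := by
    rw [← Matrix.rank_eq_finrank_span_row]; exact hrk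
  choose f0 hf0 using hw
  refine ⟨fun i => f0 (Fin.castLE hr' i), g, ?_⟩
  have hrow : LinearIndependent F (A.submatrix (fun i => f0 (Fin.castLE hr' i)) g).row := by
    have h1 : (A.submatrix (fun i => f0 (Fin.castLE hr' i)) g).row = w ∘ Fin.castLE hr' := by
      funext i
      rw [Function.comp_apply, ← hf0]
      rfl
    rw [h1]
    exact hliw.comp _ (Fin.castLE_injective hr')
  have hu := Matrix.linearIndependent_rows_iff_isUnit.1 hrow
  exact ((Matrix.isUnit_iff_isUnit_det _).1 hu).ne_zero

/-- The matrix with polynomial entries. -/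
theorem map_Mat {R : Type} [CommRing R] (n r m : ℕ) (v : Fin r × (Fin n →₀ ℕ) → R) :
    ((Mat n r m fun j α => (MvPolynomial.X (j, α) : MvPolynomial (Fin r × (Fin n →₀ ℕ)) ℤ)).map
      (MvPolynomial.aeval v)) = Mat n r m fun j α => v (j, α) := by
  ext β q
  simp only [Mat, Matrix.map_apply, Matrix.of_apply]
  split_ifs <;> simp

theorem semi (hN : NakStatement) (hR : RnkStatement) : SemiStatement := by
  classical
  intro n r m k _ a ha
  set c : ℕ := Fintype.card (Exd n m) with hc
  set s : ℕ := c - m with hs
  -- rank of the matrix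
  have h1 : len k (Ideal.span (Set.range a) ⊔ MO k n (m + 1)) ≤ m := by
    refine le_trans ?_ ha
    unfold len
    exact Module.length_le_of_surjective
      (Submodule.mapQ ((Ideal.span (Set.range a)).restrictScalars k)
        ((Ideal.span (Set.range a) ⊔ MO k n (m + 1)).restrictScalars k) LinearMap.id
        (fun x hx => Submodule.mem_sup_left hx))
      (by
        intro y
        obtain ⟨x, rfl⟩ := Submodule.Quotient.mk_surjective _ y
        exact ⟨Submodule.Quotient.mk x, rfl⟩)
  have h2 := hR n r m k a
  have h3 : s ≤ (Mat n r m fun j α => coeff α (a j)).rank := by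
    have h4 : (c : ℕ∞) ≤ m + ((Mat n r m fun j α => coeff α (a j)).rank : ℕ) := by
      rw [hc, ← h2]; gcongr
    have h5 : c ≤ m + (Mat n r m fun j α => coeff α (a j)).rank := by exact_mod_cast h4
    omega
  obtain ⟨f, g, hfg⟩ := exists_minor _ s h3
  set U : Matrix (Exd n m) (Fin r × Exd n m) (MvPolynomial (Fin r × (Fin n →₀ ℕ)) ℤ) :=
    Mat n r m fun j α => MvPolynomial.X (j, α) with hU
  have hmap : ∀ (K : Type) [Field K] (b : Fin r → O K n),
      MvPolynomial.aeval (fun q : Fin r × (Fin n →₀ ℕ) => coeff q.2 (b q.1))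
        (U.submatrix f g).det =
      ((Mat n r m fun j α => coeff α (b j)).submatrix f g).det := by
    intro K _ b
    have h6 := map_Mat n r m (fun q : Fin r × (Fin n →₀ ℕ) => coeff q.2 (b q.1))
    rw [AlgHom.map_det]
    congr 1
    rw [← h6]
    rfl
  refine ⟨(U.submatrix f g).det, ?_, ?_, ?_⟩
  · intro q hq
    have hsup : (U.submatrix f g).det ∈
        MvPolynomial.supported ℤ {q : Fin r × (Fin n →₀ ℕ) | q.2.degree ≤ m} := by
      rw [Matrix.det_apply]
      refine Subalgebra.sum_mem _ fun σ _ => ?_
      have hp : ∏ i, (U.submatrix f g) (σ i) i ∈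
          MvPolynomial.supported ℤ {q : Fin r × (Fin n →₀ ℕ) | q.2.degree ≤ m} := by
        refine Subalgebra.prod_mem _ fun i _ => ?_
        simp only [Matrix.submatrix_apply, hU, Mat, Matrix.of_apply]
        split_ifs with hle
        · refine Algebra.subset_adjoin ⟨_, ?_, rfl⟩
          have h7 : ((f (σ i) : Fin n →₀ ℕ) - ((g i).2 : Fin n →₀ ℕ)).degree ≤
              (f (σ i) : Fin n →₀ ℕ).degree := by
            have h8 : ((f (σ i) : Fin n →₀ ℕ) - ((g i).2 : Fin n →₀ ℕ)) +
                ((g i).2 : Fin n →₀ ℕ) = (f (σ i) : Fin n →₀ ℕ) := tsub_add_cancel_of_le hle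
            have h9 := congrArg Finsupp.degree h8
            rw [map_add] at h9
            omega
          exact le_trans h7 (f (σ i)).2
        · exact Subalgebra.zero_mem _
      rcases Int.units_eq_one_or (Equiv.Perm.sign σ) with h | h
      · rw [h]; simpa using hp
      · rw [h]; simpa using hp
    exact (MvPolynomial.mem_supported.1 hsup) hq
  · rw [hmap]; exact hfg
  · intro K _ b hb
    rw [hmap] at hb
    have h6 : s ≤ (Mat n r m fun j α => coeff α (b j)).rank := by
      have h7 := Matrix.rank_submatrix_le (Mat n r m fun j α => coeff α (b j)) f g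
      rw [Matrix.rank_of_det_ne_zero hb] at h7
      simpa using h7
    have h8 := hR n r m K b
    refine (hN n m K _ ?_).1
    have h9 : len K (Ideal.span (Set.range b) ⊔ MO K n (m + 1)) ≠ ⊤ := by
      intro h
      rw [h, top_add] at h8
      exact ENat.natCast_ne_top _ h8.symm
    obtain ⟨l, hl⟩ := ENat.ne_top_iff_exists.1 h9
    rw [← hl] at h8 ⊢
    have h10 : l + (Mat n r m fun j α => coeff α (b j)).rank = c := by exact_mod_cast h8
    have h11 : l ≤ m := by omega
    exact_mod_cast h11

end Pool.Agent.DU5.TR.H20
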